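import Pool.Agent.Lib.MP_688fd0_co.SQ7.H95.GrpB
import Pool.Agent.Lib.MP_688fd0_co.SQ7.H25.Nvd

/-!
Type C2, B1-FULL: row GRPB.
-/

set_option autoImplicit false

namespace Pool.Agent.Lib.MP_688fd0_co.SQ7.H95

/-- ROW GRPB. -/
theorem grpBS : GrpBS := by
  intro G _ _ N C eps k P A S D h
  obtain ⟨Nv, n1, n2, n3, n4, n5, n6, n7⟩ := H25.nvd h (T := TT S) (V := VV S) (hT h) rfl (Vn S) (Vs S) (Vmin S)
  obtain ⟨lev, l1, l2, l3⟩ := exists_lev S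
  obtain ⟨δ, d1, d2, d3⟩ := del h.gn.Nn (VT S) (Vn S) (fun x hx => ((n1 x).1 hx).2.1) n3 n5
  have hL : 0 < (VV S).relIndex (TT S) := Nat.pos_of_ne_zero Subgroup.index_ne_zero_of_finite
  exact ⟨TT S, VV S, Nv, (VV S).relIndex (TT S), δ, lev,
    { gn := h.gn, symA := h.symA, neg := h.neg, al := h.al, be := h.be, ne := h.ne, al_inv := h.al_inv,
      be_inv := h.be_inv, kind := h.kind, DA := h.DA, Dn := h.Dn, Dinv := h.Dinv, DG := h.DG, gen := h.gen,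
      hT := hT h, Tcl := rfl, VT := VT S, Vn := Vn S, Vs := Vs S, Vmin := Vmin S, Nv_mem := n1, Nv_cen := n2,
      NvV := n3, Nv_C := n4, NT := n5, P_dvd := n6, Lpos := hL, hL := d1, δk := ⟨d2, h.gn.idx ▸ d3⟩, Vk := n7,
      lev_mul := l1, lev_sv := l2, lev_V := l3 }⟩

end Pool.Agent.Lib.MP_688fd0_co.SQ7.H95
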