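import Pool.Agent.Lib.MP_688fd0_co.SQ7.IfaceG

/-!
Type C2, B1-FULL, row GRPB: the number of the levels is `δ * |Nv|` with `0 < δ ≤ k`.
-/

set_option autoImplicit false

namespace Pool.Agent.Lib.MP_688fd0_co.SQ7.H95

/-- `[T : V] = δ * |Nv|` with `0 < δ ≤ [G : N]`. -/
theorem del {G : Type} [Group G] [Finite G] {N T V Nv : Subgroup G} (hN : N.Normal) (VT : V ≤ T)
    (Vn : ∀ x ∈ T, ∀ y ∈ V, x * y * x⁻¹ ∈ V) (NvT : Nv ≤ T) (NvV : ∀ x ∈ Nv, x ∈ V → x = 1)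
    (NT : ∀ x ∈ N, x ∈ T → ∃ y ∈ Nv, ∃ z ∈ N ⊓ V, x = y * z) :
    ∃ δ, V.relIndex T = δ * Nat.card Nv ∧ 0 < δ ∧ δ ≤ N.index := by
  have hV' : (V.subgroupOf T).Normal := by
    refine ⟨fun x hx g => ?_⟩
    rw [Subgroup.mem_subgroupOf] at hx ⊢
    exact Vn g.1 g.2 x.1 hx
  have h1 := Subgroup.relIndex_mul_index (H := V.subgroupOf T) (K := Nv.subgroupOf T ⊔ V.subgroupOf T) le_sup_right
  have h2 : (V.subgroupOf T).relIndex (Nv.subgroupOf T ⊔ V.subgroupOf T) = Nat.card Nv := by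
    rw [Subgroup.relIndex_sup_right]
    have h3 : V.subgroupOf T ⊓ Nv.subgroupOf T = ⊥ := by
      rw [Subgroup.eq_bot_iff_forall]
      intro x hx
      exact Subtype.ext (NvV x.1 (Subgroup.mem_subgroupOf.1 hx.2) (Subgroup.mem_subgroupOf.1 hx.1))
    rw [← Subgroup.inf_relIndex_right, h3, Subgroup.relIndex_bot_left]
    exact Nat.card_congr (Subgroup.subgroupOfEquivOfLe NvT).toEquiv
  refine ⟨(Nv.subgroupOf T ⊔ V.subgroupOf T).index, ?_, ?_, ?_⟩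
  · rw [mul_comm, ← h2, h1]; rfl
  · exact Nat.pos_of_ne_zero Subgroup.index_ne_zero_of_finite
  · have h4 : N.subgroupOf T ≤ Nv.subgroupOf T ⊔ V.subgroupOf T := by
      intro x hx
      rw [Subgroup.mem_subgroupOf] at hx
      obtain ⟨y, hy, z, hz, e⟩ := NT x.1 hx x.2
      have e' : x = (⟨y, NvT hy⟩ : T) * ⟨z, VT hz.2⟩ := Subtype.ext e
      rw [e']
      exact Subgroup.mul_mem_sup (Subgroup.mem_subgroupOf.2 hy) (Subgroup.mem_subgroupOf.2 hz.2)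
    have h5 : N.relIndex T ≤ N.index :=
      Nat.le_of_dvd (Nat.pos_of_ne_zero Subgroup.index_ne_zero_of_finite) (Subgroup.relIndex_dvd_index_of_normal N T)
    refine le_trans (Nat.le_of_dvd (Nat.pos_of_ne_zero Subgroup.index_ne_zero_of_finite) (Subgroup.index_dvd_of_le h4)) ?_
    exact h5

end Pool.Agent.Lib.MP_688fd0_co.SQ7.H95
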