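import Pool.Agent.Lib.MP_688fd0_co.SQ7.H95.Del

/-!
Type C2, B1-FULL, row GRPB: the group of one coset, the columns, the level map.
-/

set_option autoImplicit false

namespace Pool.Agent.Lib.MP_688fd0_co.SQ7.H95

variable {G : Type} [Group G]

/-- The group of one coset. -/
def TT (S : Lets G) : Subgroup G := Subgroup.closure (Set.range S.sv)

/-- The columns: the normal closure in `TT S` of the quotients of the steps. -/
def VV (S : Lets G) : Subgroup G :=
  Subgroup.closure {z | ∃ x ∈ TT S, ∃ s s', z = x * (S.sv s * (S.sv s')⁻¹) * x⁻¹}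

theorem sv_mem (S : Lets G) (s : Lt) : S.sv s ∈ TT S := Subgroup.subset_closure ⟨s, rfl⟩

theorem VT (S : Lets G) : VV S ≤ TT S := by
  refine (Subgroup.closure_le _).2 ?_
  rintro _ ⟨x, hx, s, s', rfl⟩
  exact (TT S).mul_mem ((TT S).mul_mem hx ((TT S).mul_mem (sv_mem S s) ((TT S).inv_mem (sv_mem S s'))))
    ((TT S).inv_mem hx)

theorem Vs (S : Lets G) (s s' : Lt) : S.sv s * (S.sv s')⁻¹ ∈ VV S :=
  Subgroup.subset_closure ⟨1, (TT S).one_mem, s, s', by group⟩

theorem Vn (S : Lets G) (x : G) (hx : x ∈ TT S) (y : G) (hy : y ∈ VV S) : x * y * x⁻¹ ∈ VV S := by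
  induction hy using Subgroup.closure_induction with
  | mem y hy =>
    obtain ⟨x', hx', s, s', rfl⟩ := hy
    refine Subgroup.subset_closure ⟨x * x', (TT S).mul_mem hx hx', s, s', ?_⟩
    group
  | one => rw [mul_one, mul_inv_cancel]; exact (VV S).one_mem
  | mul y y' _ _ h1 h2 =>
    have h3 := (VV S).mul_mem h1 h2
    have e : x * (y * y') * x⁻¹ = x * y * x⁻¹ * (x * y' * x⁻¹) := by group
    rwa [e]
  | inv y _ h1 =>
    have h3 := (VV S).inv_mem h1
    have e : x * y⁻¹ * x⁻¹ = (x * y * x⁻¹)⁻¹ := by group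
    rwa [e]

theorem Vmin (S : Lets G) (U : Subgroup G) (h1 : ∀ x ∈ TT S, ∀ y ∈ U, x * y * x⁻¹ ∈ U)
    (h2 : ∀ s s', S.sv s * (S.sv s')⁻¹ ∈ U) : VV S ≤ U := by
  refine (Subgroup.closure_le _).2 ?_
  rintro _ ⟨x, hx, s, s', rfl⟩
  exact h1 x hx _ (h2 s s')

/-- The words with sign `1`. -/
theorem hT {N C : Subgroup G} {eps : G →* ℤˣ} {k P : ℕ} {A : Set G} {S : Lets G} {D : Set G}
    (h : Bas N C eps k P A S D) (x : G) :
    x ∈ TT S ↔ x ∈ Subgroup.closure (Set.range S.al ∪ Set.range S.be) ∧ eps x = 1 := by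
  have hal : ∀ i, S.al i ∈ Subgroup.closure (Set.range S.al ∪ Set.range S.be) := fun i =>
    Subgroup.subset_closure (Or.inl ⟨i, rfl⟩)
  have hbe : ∀ i, S.be i ∈ Subgroup.closure (Set.range S.al ∪ Set.range S.be) := fun i =>
    Subgroup.subset_closure (Or.inr ⟨i, rfl⟩)
  have ea : ∀ i, eps (S.al i) = -1 := fun i => h.neg _ (h.al i)
  have eb : ∀ i, eps (S.be i) = -1 := fun i => h.neg _ (h.be i)
  have h1 : TT S ≤ Subgroup.closure (Set.range S.al ∪ Set.range S.be) ⊓ eps.ker := by
    refine (Subgroup.closure_le _).2 ?_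
    rintro _ ⟨s, rfl⟩
    refine ⟨Subgroup.mul_mem _ (hal _) (Subgroup.inv_mem _ (hbe _)), ?_⟩
    change eps (S.al s.1 * (S.be s.2)⁻¹) = 1
    rw [map_mul, map_inv, ea, eb]; decide
  constructor
  · intro hx; exact h1 hx
  · rintro ⟨hx, he⟩
    have hbi : ∀ j, (S.be j)⁻¹ = S.be (!j) := by
      intro j; cases j
      · exact h.be_inv.symm
      · change (S.be true)⁻¹ = S.be false
        rw [h.be_inv, inv_inv]
    have k1 : ∀ i, S.al i * (S.al false)⁻¹ ∈ TT S := by
      intro i
      have := (TT S).mul_mem (sv_mem S (i, false)) ((TT S).inv_mem (sv_mem S (false, false)))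
      unfold Lets.sv at this
      simpa [mul_assoc] using this
    have k2 : ∀ i, S.be i * (S.al false)⁻¹ ∈ TT S := by
      intro i
      have := (TT S).inv_mem (sv_mem S (false, i))
      unfold Lets.sv at this
      simpa using this
    have k3 : ∀ i, S.al false * S.al i ∈ TT S := by
      intro i
      obtain ⟨i', hi'⟩ := h.al_inv i
      have e : S.al i = (S.al i')⁻¹ := by rw [← hi', inv_inv]
      have h2 := (TT S).inv_mem (k1 i')
      rw [e]
      simpa using h2
    have k4 : ∀ j, S.al false * S.be j ∈ TT S := by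
      intro j
      have h2 := sv_mem S (false, !j)
      unfold Lets.sv at h2
      rw [hbi, Bool.not_not] at h2
      exact h2
    have key : ∀ s ∈ Set.range S.al ∪ Set.range S.be, s * (S.al false)⁻¹ ∈ TT S ∧ S.al false * s ∈ TT S := by
      rintro _ (⟨i, rfl⟩ | ⟨i, rfl⟩)
      · exact ⟨k1 i, k3 i⟩
      · exact ⟨k2 i, k4 i⟩
    have main : ∀ y ∈ Subgroup.closure (Set.range S.al ∪ Set.range S.be), y ∈ TT S ∨ y * (S.al false)⁻¹ ∈ TT S := by
      intro y hy
      induction hy using Subgroup.closure_induction_right with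
      | one => exact Or.inl (TT S).one_mem
      | mul_right y _ s hs ih =>
        rcases ih with ih | ih
        · right
          rw [mul_assoc]
          exact (TT S).mul_mem ih (key s hs).1
        · left
          have e : y * s = y * (S.al false)⁻¹ * (S.al false * s) := by group
          rw [e]
          exact (TT S).mul_mem ih (key s hs).2
      | mul_inv_cancel y _ s hs ih =>
        have hs' : s⁻¹ ∈ Set.range S.al ∪ Set.range S.be := by
          rcases hs with ⟨i, rfl⟩ | ⟨i, rfl⟩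
          · obtain ⟨i', hi'⟩ := h.al_inv i
            exact Or.inl ⟨i', hi'.symm⟩
          · exact Or.inr ⟨!i, (hbi i).symm⟩
        rcases ih with ih | ih
        · right
          rw [mul_assoc]
          exact (TT S).mul_mem ih (key _ hs').1
        · left
          have e : y * s⁻¹ = y * (S.al false)⁻¹ * (S.al false * s⁻¹) := by group
          rw [e]
          exact (TT S).mul_mem ih (key _ hs').2
    rcases main x hx with h2 | h2
    · exact h2
    · exfalso
      have h3 : eps (x * (S.al false)⁻¹) = 1 := (h1 h2).2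
      rw [map_mul, map_inv, he, ea] at h3
      exact absurd h3 (by decide)

/-- The level map. -/
theorem exists_lev [Finite G] (S : Lets G) :
    ∃ lev : G → ZMod ((VV S).relIndex (TT S)), (∀ x ∈ TT S, ∀ y ∈ TT S, lev (x * y) = lev x + lev y) ∧
      (∀ s, lev (S.sv s) = 1) ∧ ∀ x ∈ TT S, lev x = 0 ↔ x ∈ VV S := by
  classical
  have hV' : ((VV S).subgroupOf (TT S)).Normal := by
    refine ⟨fun x hx g => ?_⟩
    rw [Subgroup.mem_subgroupOf] at hx ⊢
    exact Vn S g.1 g.2 x.1 hx
  set s0 : Lt := (false, false) with hs0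
  set q : TT S →* TT S ⧸ (VV S).subgroupOf (TT S) := QuotientGroup.mk' _ with hq
  have hq1 : ∀ x : TT S, q x = 1 ↔ x.1 ∈ VV S := by
    intro x
    rw [hq, QuotientGroup.mk'_apply, QuotientGroup.eq_one_iff, Subgroup.mem_subgroupOf]
  set g : TT S ⧸ (VV S).subgroupOf (TT S) := q ⟨S.sv s0, sv_mem S s0⟩ with hg
  have hgs : ∀ s, q ⟨S.sv s, sv_mem S s⟩ = g := by
    intro s
    have h1 : q (⟨S.sv s, sv_mem S s⟩ * (⟨S.sv s0, sv_mem S s0⟩)⁻¹) = 1 := (hq1 _).2 (Vs S s s0)
    rw [map_mul, map_inv, mul_inv_eq_one] at h1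
    exact h1
  have hgen : ∀ x : G, ∀ hx : x ∈ TT S, ∃ n : ℤ, g ^ n = q ⟨x, hx⟩ := by
    intro x hx
    have h1 : ∀ x : G, ∀ hx : x ∈ TT S, q ⟨x, hx⟩ ∈ Subgroup.zpowers g := by
      intro x hx
      induction hx using Subgroup.closure_induction with
      | mem y hy =>
        obtain ⟨s, rfl⟩ := hy
        have := hgs s
        rw [this]
        exact Subgroup.mem_zpowers g
      | one =>
        have : q (1 : TT S) = 1 := map_one q
        have e : q ⟨1, (TT S).one_mem⟩ = 1 := this
        rw [e]; exact Subgroup.one_mem _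
      | mul y y' h h' h1 h2 =>
        have e : q ⟨y * y', (TT S).mul_mem h h'⟩ = q ⟨y, h⟩ * q ⟨y', h'⟩ := by
          rw [← map_mul]; rfl
        rw [e]; exact Subgroup.mul_mem _ h1 h2
      | inv y h h1 =>
        have e : q ⟨y⁻¹, (TT S).inv_mem h⟩ = (q ⟨y, h⟩)⁻¹ := by
          rw [← map_inv]; rfl
        rw [e]; exact Subgroup.inv_mem _ h1
    exact Subgroup.mem_zpowers_iff.1 (h1 x hx)
  have hord : orderOf g = (VV S).relIndex (TT S) := by
    have h1 : Subgroup.zpowers g = ⊤ := by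
      rw [Subgroup.eq_top_iff']
      intro x
      obtain ⟨y, rfl⟩ := QuotientGroup.mk'_surjective _ x
      obtain ⟨n, hn⟩ := hgen y.1 y.2
      exact Subgroup.mem_zpowers_iff.2 ⟨n, hn⟩
    rw [← Nat.card_zpowers, h1, Subgroup.card_top]
    rfl
  choose ex hex using hgen
  have hcast : ∀ m n : ℤ, g ^ m = g ^ n → (m : ZMod ((VV S).relIndex (TT S))) = n := by
    intro m n h
    rw [ZMod.intCast_eq_intCast_iff, ← hord]
    exact zpow_eq_zpow_iff_modEq.1 h
  refine ⟨fun x => if hx : x ∈ TT S then (ex x hx : ZMod _) else 0, ?_, ?_, ?_⟩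
  · intro x hx y hy
    have hxy : x * y ∈ TT S := (TT S).mul_mem hx hy
    simp only [dif_pos hx, dif_pos hy, dif_pos hxy]
    rw [← Int.cast_add]
    refine hcast _ _ ?_
    rw [zpow_add, hex, hex, hex, ← map_mul]; rfl
  · intro s
    simp only [dif_pos (sv_mem S s)]
    have := hcast (ex _ (sv_mem S s)) 1 (by rw [hex, hgs, zpow_one])
    rw [this, Int.cast_one]
  · intro x hx
    simp only [dif_pos hx]
    rw [← Int.cast_zero, ZMod.intCast_eq_intCast_iff, ← hord, ← zpow_eq_zpow_iff_modEq, hex, zpow_zero, hq1]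

end Pool.Agent.Lib.MP_688fd0_co.SQ7.H95
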